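import Mathlib

/-!
# A refinement of a finite incidence structure with weights

`S` runs over the sets of tubes through a point (the atoms), `w S` is the volume of the atom.
-/

set_option autoImplicit false

namespace Pool.Agent.H94.BR

open Finset

/-- A subfamily `I` such that each member of `I` has mass at least `a` in the atoms at least half
of whose tubes belong to `I`, and the mass of `I` in these atoms is at least half of the total
mass minus `a N`. -/
theorem refine_atoms {N : ℕ} (w : Finset (Fin N) → ℝ) (hw : ∀ S, 0 ≤ w S) {a : ℝ}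
    (ha : 0 ≤ a) :
    ∃ I : Finset (Fin N),
      (∀ i ∈ I, a ≤ ∑ S ∈ (univ : Finset (Finset (Fin N))).filter
        (fun S => i ∈ S ∧ S.card ≤ 2 * (I ∩ S).card), w S) ∧
      (∑ S : Finset (Fin N), w S * (S.card : ℝ)) / 2 - a * N ≤
        ∑ S ∈ (univ : Finset (Finset (Fin N))).filter (fun S => S.card ≤ 2 * (I ∩ S).card),
          w S * ((I ∩ S).card : ℝ) := by
  classical
  obtain ⟨Ψ, hΨ⟩ : ∃ Ψ : Finset (Fin N) → ℝ, Ψ = fun I =>
    ∑ S : Finset (Fin N), w S * max (((I ∩ S).card : ℝ) - (S.card : ℝ) / 2) 0 - a * I.card :=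
    ⟨_, rfl⟩
  obtain ⟨I, -, hI⟩ := Finset.exists_max_image (univ : Finset (Finset (Fin N))) Ψ
    ⟨∅, mem_univ _⟩
  refine ⟨I, fun i hi => ?_, ?_⟩
  · have h1 := hI (I.erase i) (mem_univ _)
    rw [hΨ] at h1
    simp only at h1
    have hc : ((I.erase i).card : ℝ) = I.card - 1 := by
      rw [Finset.card_erase_of_mem hi, Nat.cast_sub (Finset.card_pos.2 ⟨i, hi⟩)]
      simp
    rw [hc] at h1
    have h2 : ∑ S : Finset (Fin N), w S * max (((I ∩ S).card : ℝ) - (S.card : ℝ) / 2) 0 ≤
        ∑ S : Finset (Fin N), w S * max ((((I.erase i) ∩ S).card : ℝ) - (S.card : ℝ) / 2) 0 +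
        ∑ S ∈ (univ : Finset (Finset (Fin N))).filter
          (fun S => i ∈ S ∧ S.card ≤ 2 * (I ∩ S).card), w S := by
      rw [Finset.sum_filter, ← Finset.sum_add_distrib]
      refine Finset.sum_le_sum fun S _ => ?_
      by_cases hiS : i ∈ S
      · have h3 : ((I.erase i) ∩ S).card + 1 = (I ∩ S).card := by
          rw [Finset.erase_inter, Finset.card_erase_add_one]
          exact Finset.mem_inter.2 ⟨hi, hiS⟩
        have h4 : (((I.erase i) ∩ S).card : ℝ) = (I ∩ S).card - 1 := by
          rw [← h3]; push_cast; ring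
        by_cases h5 : S.card ≤ 2 * (I ∩ S).card
        · rw [if_pos ⟨hiS, h5⟩, h4]
          have h6 : max (((I ∩ S).card : ℝ) - (S.card : ℝ) / 2) 0 ≤
              max (((I ∩ S).card : ℝ) - 1 - (S.card : ℝ) / 2) 0 + 1 := by
            rcases le_total (((I ∩ S).card : ℝ) - (S.card : ℝ) / 2) 0 with h | h
            · rw [max_eq_right h]
              have := le_max_right (((I ∩ S).card : ℝ) - 1 - (S.card : ℝ) / 2) 0
              linarith
            · rw [max_eq_left h]
              have := le_max_left (((I ∩ S).card : ℝ) - 1 - (S.card : ℝ) / 2) 0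
              linarith
          calc w S * max (((I ∩ S).card : ℝ) - (S.card : ℝ) / 2) 0 ≤
              w S * (max (((I ∩ S).card : ℝ) - 1 - (S.card : ℝ) / 2) 0 + 1) :=
                mul_le_mul_of_nonneg_left h6 (hw S)
            _ = _ := by ring
        · rw [if_neg (fun h => h5 h.2)]
          have h6 : max (((I ∩ S).card : ℝ) - (S.card : ℝ) / 2) 0 = 0 := by
            refine max_eq_right ?_
            have : (2 * (I ∩ S).card : ℝ) < S.card := by
              exact_mod_cast not_le.1 h5
            linarith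
          rw [h6, mul_zero, add_zero]
          exact mul_nonneg (hw S) (le_max_right _ _)
      · rw [if_neg (fun h => hiS h.1), add_zero]
        have h3 : (I.erase i) ∩ S = I ∩ S := by
          ext j
          simp only [Finset.mem_inter, Finset.mem_erase]
          constructor
          · rintro ⟨⟨_, h⟩, h'⟩; exact ⟨h, h'⟩
          · rintro ⟨h, h'⟩
            exact ⟨⟨fun hj => hiS (hj ▸ h'), h⟩, h'⟩
        rw [h3]
    linarith
  · have h1 := hI univ (mem_univ _)
    rw [hΨ] at h1
    simp only at h1
    rw [Finset.card_univ, Fintype.card_fin] at h1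
    have h2 : (∑ S : Finset (Fin N), w S * (S.card : ℝ)) / 2 ≤
        ∑ S : Finset (Fin N), w S * max ((((univ : Finset (Fin N)) ∩ S).card : ℝ) -
          (S.card : ℝ) / 2) 0 := by
      rw [Finset.sum_div]
      refine Finset.sum_le_sum fun S _ => ?_
      rw [Finset.univ_inter]
      have := le_max_left ((S.card : ℝ) - (S.card : ℝ) / 2) 0
      have h3 : (S.card : ℝ) / 2 ≤ max ((S.card : ℝ) - (S.card : ℝ) / 2) 0 := by linarith
      calc w S * (S.card : ℝ) / 2 = w S * ((S.card : ℝ) / 2) := by ring
        _ ≤ _ := mul_le_mul_of_nonneg_left h3 (hw S)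
    have h3 : ∑ S : Finset (Fin N), w S * max (((I ∩ S).card : ℝ) - (S.card : ℝ) / 2) 0 ≤
        ∑ S ∈ (univ : Finset (Finset (Fin N))).filter (fun S => S.card ≤ 2 * (I ∩ S).card),
          w S * ((I ∩ S).card : ℝ) := by
      rw [Finset.sum_filter]
      refine Finset.sum_le_sum fun S _ => ?_
      by_cases h5 : S.card ≤ 2 * (I ∩ S).card
      · rw [if_pos h5]
        refine mul_le_mul_of_nonneg_left (max_le ?_ (Nat.cast_nonneg _)) (hw S)
        have : (0 : ℝ) ≤ S.card := Nat.cast_nonneg _
        linarith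
      · rw [if_neg h5]
        have h6 : max (((I ∩ S).card : ℝ) - (S.card : ℝ) / 2) 0 = 0 := by
          refine max_eq_right ?_
          have : (2 * (I ∩ S).card : ℝ) < S.card := by
            exact_mod_cast not_le.1 h5
          linarith
        rw [h6, mul_zero]
    have h4 : 0 ≤ (I.card : ℝ) := Nat.cast_nonneg _
    have h5 : ∑ S : Finset (Fin N), w S * max (((I ∩ S).card : ℝ) - (S.card : ℝ) / 2) 0 -
        a * I.card ≤ ∑ S ∈ (univ : Finset (Finset (Fin N))).filter
          (fun S => S.card ≤ 2 * (I ∩ S).card), w S * ((I ∩ S).card : ℝ) := by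
      have := mul_nonneg ha h4
      linarith
    linarith

end Pool.Agent.H94.BR
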