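import Pool.Agent.H53.Kak.Dual
import Pool.Agent.H94.BR.Ref

/-!
# The broad points of a family of tubes

`Ev d j` is the statement for tubes all of which have a dense shading and which are broad at all
points of the shading. `broad_avg` derives a statement for all families: the shading consists of
points at which the tubes are broad or few, and is dense on average. `broad_mass`: almost no mass
is carried by the broad points of large multiplicity.
-/

set_option autoImplicit false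

namespace Pool.Agent.H94.BR

open Finset Real MeasureTheory
open scoped ENNReal
open Pool.Agent.H53.Kak (E tube measurableSet_tube volume_tube_le CG CG_pos card_le_all)

variable {d N : ℕ}

/-- The statement for broad tubes with dense shadings. -/
def Ev (d j : ℕ) : Prop :=
  ∀ c ε : ℝ, 0 < c → 0 < ε →
    ∃ κ P C : ℝ, 0 < κ ∧ 0 < C ∧ ∀ δ : ℝ, 0 < δ → δ < 1 → ∀ (N : ℕ) (x₀ e : Fin N → E d),
      (∀ i, ‖e i‖ = 1) → (∀ i i', i ≠ i' → δ ≤ ‖e i - e i'‖) →
      ∀ X : Set (E d), MeasurableSet X → ∀ lam : ℝ, 0 < lam → lam ≤ 1 →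
      (∀ i, ENNReal.ofReal (lam * δ ^ d) ≤ volume (X ∩ tube δ (x₀ i) (e i))) →
      (∀ x ∈ X, ∀ V : Submodule ℝ (E d), Module.finrank ℝ V ≤ j + 1 → ∀ ρ : ℝ, δ ≤ ρ → ρ ≤ 1 →
        (Nat.card {i // x ∈ tube δ (x₀ i) (e i) ∧ Metric.infDist (e i) (V : Set (E d)) ≤ ρ} : ℝ) ≤
          δ ^ (-κ) * ρ ^ c * (Nat.card {i // x ∈ tube δ (x₀ i) (e i)} : ℝ)) →
      ENNReal.ofReal (C⁻¹ * δ ^ ε * (lam ^ P * (N * δ ^ d))) ≤ volume X

/-- The set of the tubes through a point. -/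
noncomputable def inc (δ : ℝ) (x₀ e : Fin N → E d) (x : E d) : Finset (Fin N) := by
  classical exact univ.filter fun i => x ∈ tube δ (x₀ i) (e i)

lemma mem_inc {δ : ℝ} {x₀ e : Fin N → E d} {x : E d} {i : Fin N} :
    i ∈ inc δ x₀ e x ↔ x ∈ tube δ (x₀ i) (e i) := by
  classical
  unfold inc
  simp

lemma card_inc (δ : ℝ) (x₀ e : Fin N → E d) (x : E d) :
    Nat.card {i // x ∈ tube δ (x₀ i) (e i)} = (inc δ x₀ e x).card := by
  classical
  rw [Nat.card_eq_fintype_card, Fintype.card_subtype]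
  unfold inc
  congr

/-- The points whose set of tubes is `S`. -/
def atom (δ : ℝ) (x₀ e : Fin N → E d) (S : Finset (Fin N)) : Set (E d) := {x | inc δ x₀ e x = S}

lemma measurableSet_atom (δ : ℝ) (x₀ e : Fin N → E d) (S : Finset (Fin N)) :
    MeasurableSet (atom δ x₀ e S) := by
  classical
  have h : atom δ x₀ e S = ⋂ i, (if i ∈ S then tube δ (x₀ i) (e i) else (tube δ (x₀ i) (e i))ᶜ) := by
    ext x
    unfold atom
    simp only [Set.mem_setOf_eq, Set.mem_iInter, Finset.ext_iff, mem_inc]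
    refine forall_congr' fun i => ?_
    by_cases hi : i ∈ S
    · simp [hi]
    · simp [hi]
  rw [h]
  refine MeasurableSet.iInter fun i => ?_
  split_ifs
  · exact measurableSet_tube _ _ _
  · exact (measurableSet_tube _ _ _).compl

/-- Every set defined by the set of tubes through the point is measurable. -/
lemma measurableSet_inc (δ : ℝ) (x₀ e : Fin N → E d) (Q : Finset (Fin N) → Prop) :
    MeasurableSet {x | Q (inc δ x₀ e x)} := by
  classical
  have h : {x | Q (inc δ x₀ e x)} =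
      ⋃ S ∈ (univ : Finset (Finset (Fin N))).filter Q, atom δ x₀ e S := by
    ext x
    simp only [Set.mem_setOf_eq, Set.mem_iUnion, Finset.mem_filter, Finset.mem_univ, true_and,
      atom, exists_prop]
    constructor
    · intro h; exact ⟨_, h, rfl⟩
    · rintro ⟨S, h, h'⟩; rw [h']; exact h
  rw [h]
  exact Finset.measurableSet_biUnion _ fun S _ => measurableSet_atom _ _ _ _

/-- The volume of a union of atoms in the shading and a tube. -/
lemma vol_union {δ : ℝ} {x₀ e : Fin N → E d} {X : Set (E d)} (hX : MeasurableSet X)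
    (Q : Finset (Fin N) → Prop) [DecidablePred Q] :
    volume (X ∩ {x | Q (inc δ x₀ e x)}) =
      ∑ S ∈ (univ : Finset (Finset (Fin N))).filter Q, volume (X ∩ atom δ x₀ e S) := by
  classical
  rw [← measure_biUnion_finset]
  · congr 1
    ext x
    simp only [Set.mem_inter_iff, Set.mem_setOf_eq, Set.mem_iUnion, Finset.mem_filter,
      Finset.mem_univ, true_and, atom, exists_prop]
    constructor
    · rintro ⟨h, h'⟩; exact ⟨_, h', h, rfl⟩
    · rintro ⟨S, h, h', h''⟩; rw [h'']; exact ⟨h', h⟩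
  · intro S _ S' _ hSS
    rw [Function.onFun, Set.disjoint_left]
    rintro x ⟨_, h⟩ ⟨_, h'⟩
    exact hSS (h.symm.trans h')
  · intro S _
    exact hX.inter (measurableSet_atom _ _ _ _)

/-- The mass: the sum of the volumes of the shadings of the tubes. -/
noncomputable def mass (δ : ℝ) (x₀ e : Fin N → E d) (X : Set (E d)) : ℝ≥0∞ :=
  ∑ i, volume (X ∩ tube δ (x₀ i) (e i))

/-- The mass by atoms. -/
lemma mass_eq {δ : ℝ} {x₀ e : Fin N → E d} {X : Set (E d)} (hX : MeasurableSet X) :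
    mass δ x₀ e X = ∑ S : Finset (Fin N), (S.card : ℝ≥0∞) * volume (X ∩ atom δ x₀ e S) := by
  classical
  unfold mass
  have h1 : ∀ i, volume (X ∩ tube δ (x₀ i) (e i)) =
      ∑ S : Finset (Fin N), if i ∈ S then volume (X ∩ atom δ x₀ e S) else 0 := by
    intro i
    have h2 := vol_union (δ := δ) (x₀ := x₀) (e := e) hX (fun S => i ∈ S)
    simp only [mem_inc] at h2
    rw [← Finset.sum_filter]
    exact h2
  simp only [h1]
  rw [Finset.sum_comm]
  refine Finset.sum_congr rfl fun S _ => ?_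
  rw [Finset.sum_ite_mem, Finset.univ_inter, Finset.sum_const, nsmul_eq_mul]

lemma mass_le {δ : ℝ} (hδ : 0 ≤ δ) {x₀ e : Fin N → E d} (hu : ∀ i, ‖e i‖ = 1) (X : Set (E d)) :
    mass δ x₀ e X ≤ ENNReal.ofReal (N * (2 * δ) ^ d) := by
  unfold mass
  calc ∑ i, volume (X ∩ tube δ (x₀ i) (e i)) ≤ ∑ _i : Fin N, ENNReal.ofReal ((2 * δ) ^ d) := by
        refine Finset.sum_le_sum fun i _ => ?_
        exact (measure_mono Set.inter_subset_right).trans (volume_tube_le δ hδ _ _ (hu i))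
    _ = _ := by
        rw [Finset.sum_const, Finset.card_univ, Fintype.card_fin, nsmul_eq_mul,
          ENNReal.ofReal_mul (Nat.cast_nonneg _), ENNReal.ofReal_natCast]

/-- The tubes through `x` are broad or few: at every scale there are few tubes with directions near
a subspace of dimension at most `j + 1`. -/
def Brd (j : ℕ) (κ c δ : ℝ) (x₀ e : Fin N → E d) (x : E d) : Prop :=
  ∀ V : Submodule ℝ (E d), Module.finrank ℝ V ≤ j + 1 → ∀ ρ : ℝ, δ ≤ ρ → ρ ≤ 1 →
    (Nat.card {i // x ∈ tube δ (x₀ i) (e i) ∧ Metric.infDist (e i) (V : Set (E d)) ≤ ρ} : ℝ) ≤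
      δ ^ (-κ) * (1 + ρ ^ c * (Nat.card {i // x ∈ tube δ (x₀ i) (e i)} : ℝ))

/-- Broadness depends on the set of tubes through the point only. -/
lemma measurableSet_brd (j : ℕ) (κ c δ : ℝ) (x₀ e : Fin N → E d) :
    MeasurableSet {x | Brd j κ c δ x₀ e x} := by
  classical
  obtain ⟨Q, hQ⟩ : ∃ Q : Finset (Fin N) → Prop, Q = fun S =>
      ∀ V : Submodule ℝ (E d), Module.finrank ℝ V ≤ j + 1 → ∀ ρ : ℝ, δ ≤ ρ → ρ ≤ 1 →
        (Nat.card {i // i ∈ S ∧ Metric.infDist (e i) (V : Set (E d)) ≤ ρ} : ℝ) ≤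
        δ ^ (-κ) * (1 + ρ ^ c * (Nat.card {i // i ∈ S} : ℝ)) := ⟨_, rfl⟩
  have h : {x | Brd j κ c δ x₀ e x} = {x | Q (inc δ x₀ e x)} := by
    ext x
    rw [hQ]
    simp only [Set.mem_setOf_eq, mem_inc]
    rfl
  rw [h]
  exact measurableSet_inc _ _ _ _

lemma card_sub_eq {δ : ℝ} {x₀ e : Fin N → E d} (I : Finset (Fin N)) (x : E d) :
    Nat.card {k : Fin I.card // x ∈ tube δ (x₀ (I.equivFin.symm k).1) (e (I.equivFin.symm k).1)} =
      (I ∩ inc δ x₀ e x).card := by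
  classical
  rw [Nat.card_eq_fintype_card, Fintype.card_subtype]
  refine Finset.card_bij (fun k _ => (I.equivFin.symm k).1) ?_ ?_ ?_
  · intro k hk
    rw [Finset.mem_filter] at hk
    exact Finset.mem_inter.2 ⟨(I.equivFin.symm k).2, mem_inc.2 hk.2⟩
  · intro k _ k' _ h
    exact I.equivFin.symm.injective (Subtype.ext h)
  · intro i hi
    rw [Finset.mem_inter, mem_inc] at hi
    refine ⟨I.equivFin ⟨i, hi.1⟩, ?_, by simp⟩
    rw [Finset.mem_filter]
    refine ⟨mem_univ _, ?_⟩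
    simpa using hi.2

lemma card_sub_le {δ : ℝ} {x₀ e : Fin N → E d} (I : Finset (Fin N)) (x : E d)
    (Q : E d → Prop) :
    Nat.card {k : Fin I.card // x ∈ tube δ (x₀ (I.equivFin.symm k).1) (e (I.equivFin.symm k).1) ∧
      Q (e (I.equivFin.symm k).1)} ≤ Nat.card {i // x ∈ tube δ (x₀ i) (e i) ∧ Q (e i)} := by
  refine Nat.card_le_card_of_injective
    (fun k => (⟨(I.equivFin.symm k.1).1, k.2⟩ : {i // x ∈ tube δ (x₀ i) (e i) ∧ Q (e i)})) ?_
  intro k k' h
  have h1 := congrArg Subtype.val h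
  exact Subtype.ext (I.equivFin.symm.injective (Subtype.ext h1))

/-- The refinement: a subfamily with dense shadings in the points of large multiplicity at least
half of whose tubes belong to the subfamily. -/
lemma refine_geo {δ : ℝ} (hδ : 0 < δ) {x₀ e : Fin N → E d} (hu : ∀ i, ‖e i‖ = 1)
    {X : Set (E d)} (hX : MeasurableSet X) (hfin : volume X ≠ ⊤) {b : ℝ} (hb : 0 ≤ b)
    {lam : ℝ} (hlam : 0 ≤ lam) (hM : ENNReal.ofReal (lam * (N * δ ^ d)) ≤ mass δ x₀ e X)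
    (hlow : b * (volume X).toReal ≤ lam / 2 * (N * δ ^ d)) :
    ∃ I : Finset (Fin N), lam * N ≤ 8 * 2 ^ d * I.card ∧
      ∀ i ∈ I, ENNReal.ofReal (lam / 8 * δ ^ d) ≤
        volume (X ∩ {x | b ≤ ((inc δ x₀ e x).card : ℝ) ∧
          (inc δ x₀ e x).card ≤ 2 * (I ∩ inc δ x₀ e x).card} ∩ tube δ (x₀ i) (e i)) := by
  classical
  obtain ⟨w, hw⟩ : ∃ w : Finset (Fin N) → ℝ, w = fun S => (volume (X ∩ atom δ x₀ e S)).toReal :=
    ⟨_, rfl⟩
  have hfinS : ∀ S, volume (X ∩ atom δ x₀ e S) ≠ ⊤ := fun S =>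
    ne_top_of_le_ne_top hfin (measure_mono Set.inter_subset_left)
  have hwS : ∀ S, volume (X ∩ atom δ x₀ e S) = ENNReal.ofReal (w S) := by
    intro S
    rw [hw, ENNReal.ofReal_toReal (hfinS S)]
  have hw0 : ∀ S, 0 ≤ w S := by
    intro S; rw [hw]; exact ENNReal.toReal_nonneg
  have hmass : mass δ x₀ e X = ENNReal.ofReal (∑ S : Finset (Fin N), w S * (S.card : ℝ)) := by
    rw [mass_eq hX, ENNReal.ofReal_sum_of_nonneg fun S _ => mul_nonneg (hw0 S) (Nat.cast_nonneg _)]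
    refine Finset.sum_congr rfl fun S _ => ?_
    rw [hwS, ENNReal.ofReal_mul (hw0 S), ENNReal.ofReal_natCast, mul_comm]
  have hM' : lam * (N * δ ^ d) ≤ ∑ S : Finset (Fin N), w S * (S.card : ℝ) := by
    rw [hmass] at hM
    rwa [ENNReal.ofReal_le_ofReal_iff (Finset.sum_nonneg fun S _ =>
      mul_nonneg (hw0 S) (Nat.cast_nonneg _))] at hM
  have hsum : ∑ S : Finset (Fin N), w S ≤ (volume X).toReal := by
    have h1 := vol_union (δ := δ) (x₀ := x₀) (e := e) hX (fun _ => True)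
    have h2 : ∑ S : Finset (Fin N), volume (X ∩ atom δ x₀ e S) ≤ volume X := by
      have h3 : (univ : Finset (Finset (Fin N))).filter (fun _ => True) = univ := by simp
      rw [h3] at h1
      rw [← h1]
      exact measure_mono Set.inter_subset_left
    simp only [hwS] at h2
    rw [← ENNReal.ofReal_sum_of_nonneg fun S _ => hw0 S] at h2
    have h3 := ENNReal.toReal_mono hfin h2
    rwa [ENNReal.toReal_ofReal (Finset.sum_nonneg fun S _ => hw0 S)] at h3
  obtain ⟨w', hw'⟩ : ∃ w' : Finset (Fin N) → ℝ, w' = fun S => if b ≤ (S.card : ℝ) then w S else 0 :=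
    ⟨_, rfl⟩
  have hw'0 : ∀ S, 0 ≤ w' S := by
    intro S; rw [hw']; simp only; split_ifs
    · exact hw0 S
    · exact le_rfl
  have hw'w : ∀ S, w' S ≤ w S := by
    intro S; rw [hw']; simp only; split_ifs
    · exact le_rfl
    · exact hw0 S
  have hhigh : lam / 2 * (N * δ ^ d) ≤ ∑ S : Finset (Fin N), w' S * (S.card : ℝ) := by
    have h1 : ∑ S : Finset (Fin N), w S * (S.card : ℝ) ≤
        ∑ S : Finset (Fin N), w' S * (S.card : ℝ) + b * ∑ S : Finset (Fin N), w S := by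
      rw [Finset.mul_sum, ← Finset.sum_add_distrib]
      refine Finset.sum_le_sum fun S _ => ?_
      rw [hw']
      simp only
      split_ifs with h
      · have := mul_nonneg hb (hw0 S)
        linarith
      · have := mul_le_mul_of_nonneg_left (not_le.1 h).le (hw0 S)
        linarith
    have h2 := mul_le_mul_of_nonneg_left hsum hb
    linarith
  have ha : 0 ≤ lam / 8 * δ ^ d := by positivity
  obtain ⟨I, hI1, hI2⟩ := refine_atoms w' hw'0 ha
  refine ⟨I, ?_, ?_⟩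
  · have h1 : ∑ S ∈ (univ : Finset (Finset (Fin N))).filter (fun S => S.card ≤ 2 * (I ∩ S).card),
        w' S * ((I ∩ S).card : ℝ) ≤ ∑ S : Finset (Fin N), w S * ((I ∩ S).card : ℝ) := by
      calc _ ≤ ∑ S : Finset (Fin N), w' S * ((I ∩ S).card : ℝ) :=
            Finset.sum_le_sum_of_subset_of_nonneg (Finset.filter_subset _ _)
              fun S _ _ => mul_nonneg (hw'0 S) (Nat.cast_nonneg _)
        _ ≤ _ := Finset.sum_le_sum fun S _ =>
            mul_le_mul_of_nonneg_right (hw'w S) (Nat.cast_nonneg _)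
    have h2 : ∑ S : Finset (Fin N), w S * ((I ∩ S).card : ℝ) ≤ I.card * (2 * δ) ^ d := by
      have h3 : ∀ S : Finset (Fin N), w S * ((I ∩ S).card : ℝ) =
          ∑ i ∈ I, if i ∈ S then w S else 0 := by
        intro S
        rw [← Finset.sum_filter, Finset.sum_const, nsmul_eq_mul, mul_comm,
          Finset.filter_mem_eq_inter]
      simp only [h3]
      rw [Finset.sum_comm]
      have h4 : ∀ i ∈ I, ∑ S : Finset (Fin N), (if i ∈ S then w S else 0) ≤ (2 * δ) ^ d := by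
        intro i _
        rw [← Finset.sum_filter]
        have h5 := vol_union (δ := δ) (x₀ := x₀) (e := e) hX (fun S => i ∈ S)
        simp only [mem_inc, hwS] at h5
        rw [← ENNReal.ofReal_sum_of_nonneg fun S _ => hw0 S] at h5
        have h6 : volume (X ∩ {x | x ∈ tube δ (x₀ i) (e i)}) ≤ ENNReal.ofReal ((2 * δ) ^ d) :=
          (measure_mono Set.inter_subset_right).trans (volume_tube_le δ hδ.le _ _ (hu i))
        rw [h5] at h6
        rwa [ENNReal.ofReal_le_ofReal_iff (by positivity)] at h6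
      calc _ ≤ ∑ _i ∈ I, (2 * δ) ^ d := Finset.sum_le_sum h4
        _ = _ := by rw [Finset.sum_const, nsmul_eq_mul]
    have h3 : lam / 8 * (N * δ ^ d) ≤ I.card * (2 * δ) ^ d := by linarith
    rw [mul_pow] at h3
    have h4 : 0 < δ ^ d := by positivity
    have h5 : lam / 8 * N * δ ^ d ≤ I.card * 2 ^ d * δ ^ d := by linarith
    have h6 := le_of_mul_le_mul_right h5 h4
    linarith
  · intro i hi
    have h1 := hI1 i hi
    have h2 := vol_union (δ := δ) (x₀ := x₀) (e := e) hX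
      (fun S => (b ≤ (S.card : ℝ) ∧ S.card ≤ 2 * (I ∩ S).card) ∧ i ∈ S)
    have h3 : X ∩ {x | b ≤ ((inc δ x₀ e x).card : ℝ) ∧
        (inc δ x₀ e x).card ≤ 2 * (I ∩ inc δ x₀ e x).card} ∩ tube δ (x₀ i) (e i) =
        X ∩ {x | (b ≤ ((inc δ x₀ e x).card : ℝ) ∧
        (inc δ x₀ e x).card ≤ 2 * (I ∩ inc δ x₀ e x).card) ∧ i ∈ inc δ x₀ e x} := by
      ext x
      simp only [Set.mem_inter_iff, Set.mem_setOf_eq, mem_inc]
      tauto
    rw [h3, h2]
    simp only [hwS]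
    rw [← ENNReal.ofReal_sum_of_nonneg fun S _ => hw0 S]
    refine ENNReal.ofReal_le_ofReal (h1.trans ?_)
    rw [Finset.sum_filter, Finset.sum_filter]
    refine Finset.sum_le_sum fun S _ => ?_
    rw [hw']
    simp only
    by_cases hS1 : i ∈ S ∧ S.card ≤ 2 * (I ∩ S).card
    · rw [if_pos hS1]
      by_cases hS2 : b ≤ (S.card : ℝ)
      · rw [if_pos hS2, if_pos ⟨⟨hS2, hS1.2⟩, hS1.1⟩]
      · rw [if_neg hS2]
        split_ifs
        · exact hw0 S
        · exact le_rfl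
    · rw [if_neg hS1]
      split_ifs
      · exact hw0 S
      · exact le_rfl

/-- Broad or few at a point of large multiplicity is broad. -/
lemma brd_high {j : ℕ} {κ c c' η δ : ℝ} (hδ : 0 < δ) (hη : 0 < η)
    (hc' : c' ≤ c) (hc'η : c' ≤ η) {x₀ e : Fin N → E d} {x : E d} (hB : Brd j κ c δ x₀ e x)
    (hm : δ ^ (-η) ≤ ((inc δ x₀ e x).card : ℝ)) (V : Submodule ℝ (E d))
    (hV : Module.finrank ℝ V ≤ j + 1) {ρ : ℝ} (hρ : δ ≤ ρ) (hρ1 : ρ ≤ 1) :
    (Nat.card {i // x ∈ tube δ (x₀ i) (e i) ∧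
      Metric.infDist (e i) (V : Set (E d)) ≤ ρ} : ℝ) ≤
      δ ^ (-κ) * (2 * ρ ^ c' * ((inc δ x₀ e x).card : ℝ)) := by
  have hρ0 : 0 < ρ := hδ.trans_le hρ
  refine (hB V hV ρ hρ hρ1).trans ?_
  rw [card_inc]
  refine mul_le_mul_of_nonneg_left ?_ (by positivity)
  have hm0 : (0 : ℝ) ≤ ((inc δ x₀ e x).card : ℝ) := Nat.cast_nonneg _
  have h1 : ρ ^ c ≤ ρ ^ c' := Real.rpow_le_rpow_of_exponent_ge hρ0 hρ1 hc'
  have h2 : ρ ^ η ≤ ρ ^ c' := Real.rpow_le_rpow_of_exponent_ge hρ0 hρ1 hc'η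
  have h3 : δ ^ η ≤ ρ ^ η := Real.rpow_le_rpow hδ.le hρ hη.le
  have h4 : 1 ≤ ρ ^ c' * ((inc δ x₀ e x).card : ℝ) := by
    calc (1 : ℝ) = δ ^ η * δ ^ (-η) := by
          rw [← Real.rpow_add hδ, add_neg_cancel, Real.rpow_zero]
      _ ≤ ρ ^ c' * ((inc δ x₀ e x).card : ℝ) :=
          mul_le_mul (h3.trans h2) hm (by positivity) (by positivity)
  have h5 := mul_le_mul_of_nonneg_right h1 hm0
  linarith

/-- **Broad points, shadings dense on average.** -/
theorem broad_avg {j : ℕ} (h : Ev d j) {c ε : ℝ} (hc : 0 < c) (hε : 0 < ε) :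
    ∃ κ P C : ℝ, 0 < κ ∧ 1 ≤ P ∧ 0 < C ∧ ∀ δ : ℝ, 0 < δ → δ < 1 →
      ∀ (N : ℕ) (x₀ e : Fin N → E d),
      (∀ i, ‖e i‖ = 1) → (∀ i i', i ≠ i' → δ ≤ ‖e i - e i'‖) →
      ∀ X : Set (E d), MeasurableSet X → (∀ x ∈ X, Brd j κ c δ x₀ e x) →
      ∀ lam : ℝ, 0 < lam → lam ≤ 1 →
      ENNReal.ofReal (lam * (N * δ ^ d)) ≤ mass δ x₀ e X →
      ENNReal.ofReal (C⁻¹ * δ ^ ε * (lam ^ P * (N * δ ^ d))) ≤ volume X := by
  classical
  obtain ⟨η, hη⟩ : ∃ η : ℝ, η = ε / 2 := ⟨_, rfl⟩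
  have hη0 : 0 < η := by rw [hη]; positivity
  obtain ⟨c', hc'⟩ : ∃ c' : ℝ, c' = min c η := ⟨_, rfl⟩
  have hc'0 : 0 < c' := by rw [hc']; exact lt_min hc hη0
  have hc'c : c' ≤ c := by rw [hc']; exact min_le_left _ _
  have hc'η : c' ≤ η := by rw [hc']; exact min_le_right _ _
  obtain ⟨κ', P', C', hκ', hC', hmain⟩ := h c' η hc'0 hη0
  obtain ⟨C₃, hC₃⟩ : ∃ C₃ : ℝ, C₃ = CG d * 3 ^ d := ⟨_, rfl⟩
  have hC₃0 : 0 < C₃ := by
    rw [hC₃]
    have := CG_pos d
    positivity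
  obtain ⟨A₁, hA₁⟩ : ∃ A₁ : ℝ, A₁ = C' * 8 ^ (|P'| + 1) * 2 ^ d := ⟨_, rfl⟩
  have hA₁0 : 0 < A₁ := by rw [hA₁]; positivity
  obtain ⟨A₂, hA₂⟩ : ∃ A₂ : ℝ, A₂ = C₃ * ((4 : ℝ) ^ (2 / κ')) ^ d := ⟨_, rfl⟩
  have hA₂0 : 0 < A₂ := by rw [hA₂]; positivity
  refine ⟨κ' / 2, |P'| + 1, 2 + A₁ + A₂, by positivity, by
    have := abs_nonneg P'
    linarith, by positivity, ?_⟩
  intro δ hδ hδ1 N x₀ e hu hsep X hX hB lam hlam hlam1 hM
  have hC2 : (2 + A₁ + A₂)⁻¹ ≤ 2⁻¹ := inv_anti₀ (by norm_num) (by linarith)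
  have hCA₁ : (2 + A₁ + A₂)⁻¹ ≤ A₁⁻¹ := inv_anti₀ hA₁0 (by linarith)
  have hCA₂ : (2 + A₁ + A₂)⁻¹ ≤ A₂⁻¹ := inv_anti₀ hA₂0 (by linarith)
  have hC0 : 0 < (2 + A₁ + A₂)⁻¹ := by positivity
  rcases Nat.eq_zero_or_pos N with hN | hN
  · rw [hN, Nat.cast_zero, zero_mul, mul_zero, mul_zero, ENNReal.ofReal_zero]
    exact bot_le
  have hNr : (0 : ℝ) < N := by exact_mod_cast hN
  by_cases hfin : volume X = ⊤
  · rw [hfin]; exact le_top
  obtain ⟨v, hv⟩ : ∃ v : ℝ, v = (volume X).toReal := ⟨_, rfl⟩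
  have hvol : volume X = ENNReal.ofReal v := by rw [hv, ENNReal.ofReal_toReal hfin]
  have hv0 : 0 ≤ v := by rw [hv]; exact ENNReal.toReal_nonneg
  rw [hvol]
  have hδd : 0 < δ ^ d := by positivity
  have hδε : δ ^ ε ≤ 1 := Real.rpow_le_one hδ.le hδ1.le hε.le
  have hδε0 : 0 < δ ^ ε := by positivity
  have hP1 : lam ^ (|P'| + 1) ≤ lam := by
    calc lam ^ (|P'| + 1) ≤ lam ^ (1 : ℝ) :=
          Real.rpow_le_rpow_of_exponent_ge hlam hlam1 (by
            have := abs_nonneg P'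
            linarith)
      _ = lam := Real.rpow_one lam
  have hlamP0 : 0 < lam ^ (|P'| + 1) := by positivity
  -- the small multiplicities
  by_cases hlow : lam / 2 * (N * δ ^ d) ≤ δ ^ (-η) * v
  · refine ENNReal.ofReal_le_ofReal ?_
    have h1 : lam / 2 * (N * δ ^ d) * δ ^ η ≤ v := by
      calc lam / 2 * (N * δ ^ d) * δ ^ η ≤ (δ ^ (-η) * v) * δ ^ η :=
            mul_le_mul_of_nonneg_right hlow (by positivity)
        _ = v * (δ ^ (-η) * δ ^ η) := by ring
        _ = v := by rw [← Real.rpow_add hδ, neg_add_cancel, Real.rpow_zero, mul_one]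
    have h2 : δ ^ ε ≤ δ ^ η :=
      Real.rpow_le_rpow_of_exponent_ge hδ hδ1.le (by rw [hη]; linarith)
    calc (2 + A₁ + A₂)⁻¹ * δ ^ ε * (lam ^ (|P'| + 1) * (N * δ ^ d)) ≤
          2⁻¹ * δ ^ η * (lam * (N * δ ^ d)) := by gcongr
      _ = lam / 2 * (N * δ ^ d) * δ ^ η := by ring
      _ ≤ v := h1
  rw [not_le] at hlow
  -- the trivial bound
  by_cases hδ4 : (4 : ℝ) ≤ δ ^ (-(κ' / 2))
  swap
  · refine ENNReal.ofReal_le_ofReal ?_
    rw [not_le] at hδ4
    have h1 : δ⁻¹ ≤ (4 : ℝ) ^ (2 / κ') := by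
      have h2 : (δ ^ (-(κ' / 2))) ^ (2 / κ') ≤ (4 : ℝ) ^ (2 / κ') :=
        Real.rpow_le_rpow (by positivity) hδ4.le (by positivity)
      rw [← Real.rpow_mul hδ.le] at h2
      have h3 : -(κ' / 2) * (2 / κ') = -1 := by field_simp
      rwa [h3, Real.rpow_neg_one] at h2
    have h2 : (N : ℝ) ≤ A₂ := by
      have h3 := card_le_all hδ hδ1 (S := (univ : Finset (Fin N))) (e := e)
        ⟨fun i _ => hu i, fun i _ i' _ hii => hsep i i' hii⟩
      rw [Finset.card_univ, Fintype.card_fin, ← hC₃] at h3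
      rw [hA₂]
      refine h3.trans ?_
      rw [← inv_pow]
      gcongr
    have h3 : lam * (N * δ ^ d) ≤ N * v := by
      have h4 : mass δ x₀ e X ≤ ENNReal.ofReal (N * v) := by
        unfold mass
        calc ∑ i, volume (X ∩ tube δ (x₀ i) (e i)) ≤ ∑ _i : Fin N, ENNReal.ofReal v := by
              refine Finset.sum_le_sum fun i _ => ?_
              rw [← hvol]
              exact measure_mono Set.inter_subset_left
          _ = _ := by
              rw [Finset.sum_const, Finset.card_univ, Fintype.card_fin, nsmul_eq_mul,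
                ENNReal.ofReal_mul (Nat.cast_nonneg _), ENNReal.ofReal_natCast]
      have h5 := hM.trans h4
      rwa [ENNReal.ofReal_le_ofReal_iff (by positivity)] at h5
    have h4 : lam * δ ^ d ≤ v := by
      have h5 : N * (lam * δ ^ d) ≤ N * v := by linarith
      exact le_of_mul_le_mul_left h5 hNr
    calc (2 + A₁ + A₂)⁻¹ * δ ^ ε * (lam ^ (|P'| + 1) * (N * δ ^ d)) ≤
          A₂⁻¹ * 1 * (lam * (A₂ * δ ^ d)) := by gcongr
      _ = lam * δ ^ d := by field_simp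
      _ ≤ v := h4
  -- the main case
  obtain ⟨I, hI1, hI2⟩ := refine_geo hδ hu hX hfin (b := δ ^ (-η)) (by positivity) hlam.le hM
    (by rw [← hv]; exact hlow.le)
  have hXm : MeasurableSet (X ∩ {x | δ ^ (-η) ≤ ((inc δ x₀ e x).card : ℝ) ∧
          (inc δ x₀ e x).card ≤ 2 * (I ∩ inc δ x₀ e x).card}) :=
    hX.inter (measurableSet_inc δ x₀ e (fun S => δ ^ (-η) ≤ (S.card : ℝ) ∧
      S.card ≤ 2 * (I ∩ S).card))
  have hres := hmain δ hδ hδ1 I.card (fun k => x₀ (I.equivFin.symm k).1)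
    (fun k => e (I.equivFin.symm k).1) (fun k => hu _)
    (fun k k' hkk => hsep _ _ fun heq => hkk (I.equivFin.symm.injective (Subtype.ext heq)))
    _ hXm (lam / 8) (by positivity) (by linarith)
    (fun k => hI2 _ (I.equivFin.symm k).2) (by
      intro x hx V hV ρ hρ hρ1
      have hρ0 : 0 < ρ := hδ.trans_le hρ
      have h1 := card_sub_le (δ := δ) (x₀ := x₀) (e := e) I x
        (fun y => Metric.infDist y (V : Set (E d)) ≤ ρ)
      have h2 := brd_high hδ hη0 hc'c hc'η (hB x hx.1) hx.2.1 V hV hρ hρ1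
      have h3 : ((inc δ x₀ e x).card : ℝ) ≤ 2 * ((I ∩ inc δ x₀ e x).card : ℝ) := by
        exact_mod_cast hx.2.2
      rw [card_sub_eq]
      have h4 : δ ^ (-κ') = δ ^ (-(κ' / 2)) * δ ^ (-(κ' / 2)) := by
        rw [← Real.rpow_add hδ]; congr 1; ring
      calc (Nat.card {k : Fin I.card // x ∈ tube δ (x₀ (I.equivFin.symm k).1)
              (e (I.equivFin.symm k).1) ∧ Metric.infDist (e (I.equivFin.symm k).1)
                (V : Set (E d)) ≤ ρ} : ℝ) ≤
            (Nat.card {i // x ∈ tube δ (x₀ i) (e i) ∧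
              Metric.infDist (e i) (V : Set (E d)) ≤ ρ} : ℝ) := by exact_mod_cast h1
        _ ≤ δ ^ (-(κ' / 2)) * (2 * ρ ^ c' * ((inc δ x₀ e x).card : ℝ)) := h2
        _ ≤ δ ^ (-(κ' / 2)) * (2 * ρ ^ c' * (2 * ((I ∩ inc δ x₀ e x).card : ℝ))) := by gcongr
        _ = δ ^ (-(κ' / 2)) * 4 * ρ ^ c' * ((I ∩ inc δ x₀ e x).card : ℝ) := by ring
        _ ≤ δ ^ (-(κ' / 2)) * δ ^ (-(κ' / 2)) * ρ ^ c' * ((I ∩ inc δ x₀ e x).card : ℝ) := by
            have h5 : δ ^ (-(κ' / 2)) * 4 ≤ δ ^ (-(κ' / 2)) * δ ^ (-(κ' / 2)) :=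
              mul_le_mul_of_nonneg_left hδ4 (by positivity)
            exact mul_le_mul_of_nonneg_right (mul_le_mul_of_nonneg_right h5 (by positivity))
              (Nat.cast_nonneg _)
        _ = _ := by rw [← h4])
  have hres2 := hres.trans (measure_mono Set.inter_subset_left)
  rw [hvol] at hres2
  refine le_trans (ENNReal.ofReal_le_ofReal ?_) hres2
  have hδη : δ ^ ε ≤ δ ^ η := Real.rpow_le_rpow_of_exponent_ge hδ hδ1.le (by rw [hη]; linarith)
  have h1 : (lam / 8) ^ |P'| ≤ (lam / 8) ^ P' :=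
    Real.rpow_le_rpow_of_exponent_ge (by positivity) (by linarith) (le_abs_self _)
  have h2 : lam * N / (8 * 2 ^ d) ≤ I.card := by
    rw [div_le_iff₀ (by positivity)]
    linarith
  have h3 : (lam / 8) ^ |P'| = lam ^ |P'| * (8 ^ |P'|)⁻¹ := by
    rw [div_eq_mul_inv, Real.mul_rpow hlam.le (by norm_num), Real.inv_rpow (by norm_num)]
  calc (2 + A₁ + A₂)⁻¹ * δ ^ ε * (lam ^ (|P'| + 1) * (N * δ ^ d)) ≤
        A₁⁻¹ * δ ^ η * (lam ^ (|P'| + 1) * (N * δ ^ d)) := by gcongr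
    _ = C'⁻¹ * δ ^ η * ((lam ^ |P'| * (8 ^ |P'|)⁻¹) * (lam * N / (8 * 2 ^ d) * δ ^ d)) := by
        rw [hA₁, Real.rpow_add hlam, Real.rpow_one, Real.rpow_add (by norm_num : (0 : ℝ) < 8),
          Real.rpow_one, mul_inv, mul_inv, mul_inv, div_eq_mul_inv, mul_inv]
        ring
    _ ≤ C'⁻¹ * δ ^ η * ((lam / 8) ^ P' * (I.card * δ ^ d)) := by
        rw [← h3]
        gcongr

/-- The mass of a set of points of multiplicity at least `b`. -/
lemma vol_le_mass {δ : ℝ} {x₀ e : Fin N → E d} {X : Set (E d)} (hX : MeasurableSet X) {b : ℝ}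
    (hm : ∀ x ∈ X, b ≤ ((inc δ x₀ e x).card : ℝ)) :
    ENNReal.ofReal b * volume X ≤ mass δ x₀ e X := by
  classical
  rw [mass_eq hX]
  have h1 : volume X = ∑ S : Finset (Fin N), volume (X ∩ atom δ x₀ e S) := by
    have h2 := vol_union (δ := δ) (x₀ := x₀) (e := e) hX (fun _ => True)
    have h3 : (univ : Finset (Finset (Fin N))).filter (fun _ => True) = univ := by simp
    have h4 : {_x : E d | True} = Set.univ := by ext; simp
    rw [h3, h4, Set.inter_univ] at h2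
    exact h2
  rw [h1, Finset.mul_sum]
  refine Finset.sum_le_sum fun S _ => ?_
  rcases (X ∩ atom δ x₀ e S).eq_empty_or_nonempty with h2 | ⟨x, hx, hxS⟩
  · rw [h2, measure_empty, mul_zero, mul_zero]
  · refine mul_le_mul_left ?_ _
    have h3 := hm x hx
    have h4 : inc δ x₀ e x = S := hxS
    rw [h4] at h3
    rw [← ENNReal.ofReal_natCast]
    exact ENNReal.ofReal_le_ofReal h3

/-- **Broad points of all families.** For families of tubes with separated directions: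
(a) sets of broad points are large; (b) almost no mass is carried by the broad points of
multiplicity at least `δ ^ (-ε)`. -/
theorem broad_all {j : ℕ} (h : Ev d j) {c ε : ℝ} (hc : 0 < c) (hε : 0 < ε) :
    ∃ κ θ P C : ℝ, 0 < κ ∧ 0 < θ ∧ 1 ≤ P ∧ 0 < C ∧ ∀ δ : ℝ, 0 < δ → δ < 1 →
      ∀ (N : ℕ) (x₀ e : Fin N → E d),
      (∀ i, ‖e i‖ = 1) → (∀ i i', i ≠ i' → δ ≤ ‖e i - e i'‖) →
      (∀ X : Set (E d), MeasurableSet X → (∀ x ∈ X, Brd j κ c δ x₀ e x) →
        ∀ lam : ℝ, 0 < lam → lam ≤ 1 →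
        ENNReal.ofReal (lam * (N * δ ^ d)) ≤ mass δ x₀ e X →
        ENNReal.ofReal (C⁻¹ * δ ^ ε * (lam ^ P * (N * δ ^ d))) ≤ volume X) ∧
      mass δ x₀ e {x | Brd j κ c δ x₀ e x ∧
        δ ^ (-ε) ≤ (Nat.card {i // x ∈ tube δ (x₀ i) (e i)} : ℝ)} ≤
        ENNReal.ofReal (C * δ ^ θ * (N * δ ^ d)) := by
  classical
  obtain ⟨κ, P, C, hκ, hP, hC, hmain⟩ := broad_avg h hc (half_pos hε)
  have hP0 : 0 < P := by linarith
  obtain ⟨A, hA⟩ : ∃ A : ℝ, A = 2 ^ d * (C * 2 ^ d) ^ (1 / P) := ⟨_, rfl⟩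
  have hA0 : 0 < A := by rw [hA]; positivity
  refine ⟨κ, ε / (2 * P), P, C + A, hκ, by positivity, hP, by positivity, ?_⟩
  intro δ hδ hδ1 N x₀ e hu hsep
  have hδd : 0 < δ ^ d := by positivity
  have hCA : (C + A)⁻¹ ≤ C⁻¹ := inv_anti₀ hC (by linarith)
  refine ⟨fun X hX hB lam hlam hlam1 hM => ?_, ?_⟩
  · refine le_trans (ENNReal.ofReal_le_ofReal ?_) (hmain δ hδ hδ1 N x₀ e hu hsep X hX hB lam hlam
      hlam1 hM)
    have h1 : δ ^ ε ≤ δ ^ (ε / 2) :=
      Real.rpow_le_rpow_of_exponent_ge hδ hδ1.le (by linarith)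
    gcongr
  · obtain ⟨X, hXd⟩ : ∃ X : Set (E d), X = {x | Brd j κ c δ x₀ e x ∧
        δ ^ (-ε) ≤ (Nat.card {i // x ∈ tube δ (x₀ i) (e i)} : ℝ)} := ⟨_, rfl⟩
    rw [← hXd]
    have hX : MeasurableSet X := by
      have h1 : X = {x | Brd j κ c δ x₀ e x} ∩
          {x | δ ^ (-ε) ≤ ((inc δ x₀ e x).card : ℝ)} := by
        rw [hXd]
        ext x
        simp only [Set.mem_setOf_eq, Set.mem_inter_iff, card_inc]
      rw [h1]
      exact (measurableSet_brd _ _ _ _ _ _).inter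
        (measurableSet_inc δ x₀ e (fun S => δ ^ (-ε) ≤ (S.card : ℝ)))
    have hXm : ∀ x ∈ X, δ ^ (-ε) ≤ ((inc δ x₀ e x).card : ℝ) := by
      intro x hx
      rw [hXd] at hx
      rw [← card_inc]
      exact hx.2
    have hXB : ∀ x ∈ X, Brd j κ c δ x₀ e x := by
      intro x hx
      rw [hXd] at hx
      exact hx.1
    have hle := mass_le hδ.le (x₀ := x₀) hu X
    have hfin : mass δ x₀ e X ≠ ⊤ := ne_top_of_le_ne_top ENNReal.ofReal_ne_top hle
    obtain ⟨M, hM⟩ : ∃ M : ℝ, M = (mass δ x₀ e X).toReal := ⟨_, rfl⟩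
    have hMe : mass δ x₀ e X = ENNReal.ofReal M := by rw [hM, ENNReal.ofReal_toReal hfin]
    have hM0 : 0 ≤ M := by rw [hM]; exact ENNReal.toReal_nonneg
    rw [hMe]
    refine ENNReal.ofReal_le_ofReal ?_
    rcases hM0.eq_or_lt with hM1 | hM1
    · rw [← hM1]; positivity
    have hNr : (0 : ℝ) < N := by
      rcases Nat.eq_zero_or_pos N with hN | hN
      · rw [hMe, hN, Nat.cast_zero, zero_mul, ENNReal.ofReal_zero, nonpos_iff_eq_zero,
          ENNReal.ofReal_eq_zero] at hle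
        linarith
      · exact_mod_cast hN
    have hND : 0 < N * δ ^ d := by positivity
    -- the density
    obtain ⟨lam, hlam⟩ : ∃ lam : ℝ, lam = M / (2 ^ d * (N * δ ^ d)) := ⟨_, rfl⟩
    have hlam0 : 0 < lam := by rw [hlam]; positivity
    have hlam1 : lam ≤ 1 := by
      rw [hMe, ENNReal.ofReal_le_ofReal_iff (by positivity)] at hle
      rw [hlam, div_le_one (by positivity)]
      calc M ≤ N * (2 * δ) ^ d := hle
        _ = _ := by rw [mul_pow]; ring
    have hMlam : M = lam * 2 ^ d * (N * δ ^ d) := by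
      rw [hlam]; field_simp
    have h2d : (1 : ℝ) ≤ 2 ^ d := one_le_pow₀ (by norm_num)
    have h1 := hmain δ hδ hδ1 N x₀ e hu hsep X hX hXB lam hlam0 hlam1 (by
      rw [hMe]
      refine ENNReal.ofReal_le_ofReal ?_
      rw [hMlam]
      have : lam * (N * δ ^ d) * 1 ≤ lam * (N * δ ^ d) * 2 ^ d :=
        mul_le_mul_of_nonneg_left h2d (by positivity)
      linarith)
    have h2 := vol_le_mass (δ := δ) (x₀ := x₀) (e := e) hX (b := δ ^ (-ε)) hXm
    have h3 : δ ^ (-ε) * (C⁻¹ * δ ^ (ε / 2) * (lam ^ P * (N * δ ^ d))) ≤ M := by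
      have h4 := (mul_le_mul_right h1 (ENNReal.ofReal (δ ^ (-ε)))).trans h2
      rw [hMe, ← ENNReal.ofReal_mul (by positivity),
        ENNReal.ofReal_le_ofReal_iff hM0] at h4
      exact h4
    -- the bound for the density
    have h4 : lam ^ P ≤ C * 2 ^ d * δ ^ (ε / 2) := by
      have h5 : δ ^ (-ε) * δ ^ (ε / 2) = (δ ^ (ε / 2))⁻¹ := by
        rw [← Real.rpow_add hδ, ← Real.rpow_neg hδ.le]; congr 1; ring
      have h6 : (δ ^ (ε / 2))⁻¹ * C⁻¹ * lam ^ P * (N * δ ^ d) ≤ lam * 2 ^ d * (N * δ ^ d) := by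
        rw [← hMlam, ← h5]
        linarith
      have h7 := le_of_mul_le_mul_right h6 hND
      have h8 : 0 < δ ^ (ε / 2) := by positivity
      calc lam ^ P = C * δ ^ (ε / 2) * ((δ ^ (ε / 2))⁻¹ * C⁻¹ * lam ^ P) := by field_simp
        _ ≤ C * δ ^ (ε / 2) * (lam * 2 ^ d) := by gcongr
        _ ≤ C * δ ^ (ε / 2) * (1 * 2 ^ d) := by gcongr
        _ = _ := by ring
    have h5 : lam ≤ (C * 2 ^ d) ^ (1 / P) * δ ^ (ε / (2 * P)) := by
      calc lam = (lam ^ P) ^ (1 / P) := by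
            rw [← Real.rpow_mul hlam0.le, mul_one_div_cancel hP0.ne', Real.rpow_one]
        _ ≤ (C * 2 ^ d * δ ^ (ε / 2)) ^ (1 / P) :=
            Real.rpow_le_rpow (by positivity) h4 (by positivity)
        _ = (C * 2 ^ d) ^ (1 / P) * δ ^ (ε / (2 * P)) := by
            rw [Real.mul_rpow (by positivity) (by positivity), ← Real.rpow_mul hδ.le]
            congr 2
            field_simp
    calc M = lam * 2 ^ d * (N * δ ^ d) := hMlam
      _ ≤ ((C * 2 ^ d) ^ (1 / P) * δ ^ (ε / (2 * P))) * 2 ^ d * (N * δ ^ d) := by gcongr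
      _ = A * δ ^ (ε / (2 * P)) * (N * δ ^ d) := by rw [hA]; ring
      _ ≤ (C + A) * δ ^ (ε / (2 * P)) * (N * δ ^ d) := by
          have : A ≤ C + A := by linarith
          gcongr

end Pool.Agent.H94.BR
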